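import Pool.Agent.Helper86.Poly.Goals

set_option autoImplicit false

namespace Pool.Agent.Helper37.Poly

open Pool.Agent.Helper86.Poly MeasureTheory Set

theorem mem_hull {ι κ : Type} [Fintype ι] [DecidableEq ι] (f : ι → κ → ℝ) (x : κ → ℝ)
    (hx : x ∈ convexHull ℝ (range f)) :
    ∃ w : ι → ℝ, (∀ i, 0 ≤ w i) ∧ ∑ i, w i = 1 ∧ ∑ i, w i • f i = x := by
  obtain ⟨J, _, w, z, hw0, hw1, hz, hx⟩ := mem_convexHull_iff_exists_fintype.1 hx
  choose k hk using hz
  refine ⟨fun i => ∑ j ∈ Finset.univ.filter (fun j => k j = i), w j, ?_, ?_, ?_⟩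
  · intro i
    exact Finset.sum_nonneg fun j _ => hw0 j
  · rw [Finset.sum_fiberwise]
    exact hw1
  · rw [← hx]
    have : ∀ i, (∑ j ∈ Finset.univ.filter (fun j => k j = i), w j) • f i =
        ∑ j ∈ Finset.univ.filter (fun j => k j = i), w j • z j := by
      intro i
      rw [Finset.sum_smul]
      refine Finset.sum_congr rfl fun j hj => ?_
      rw [← hk j, (Finset.mem_filter.1 hj).2]
    simp only [this]
    rw [Finset.sum_fiberwise]

theorem gauge_le_iff {ι : Type} {m : ℕ} [Fintype ι] (f : ι → Fin m → ℝ)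
    (h0 : (0 : Fin m → ℝ) ∈ interior (convexHull ℝ (range f))) (x : Fin m → ℝ) (t : ℝ) :
    gauge (convexHull ℝ (range f)) x ≤ t ↔
      ∃ w : ι → ℝ, (∀ i, 0 ≤ w i) ∧ ∑ i, w i = t ∧ ∑ i, w i • f i = x := by
  classical
  have hc : Convex ℝ (convexHull ℝ (range f)) := convex_convexHull ℝ _
  have hn : convexHull ℝ (range f) ∈ nhds (0 : Fin m → ℝ) := mem_interior_iff_mem_nhds.1 h0
  have hcomp : IsCompact (convexHull ℝ (range f)) := (finite_range f).isCompact_convexHull ℝ
  constructor
  · intro h
    have ht : 0 ≤ t := (gauge_nonneg _).trans h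
    rcases ht.eq_or_lt with ht0 | ht0
    · have h1 : gauge (convexHull ℝ (range f)) x = 0 :=
        le_antisymm (ht0 ▸ h) (gauge_nonneg _)
      have hb : Bornology.IsVonNBounded ℝ (convexHull ℝ (range f)) :=
        (NormedSpace.isVonNBounded_iff ℝ).2 hcomp.isBounded
      have hx : x = 0 := (gauge_eq_zero (absorbent_nhds_zero hn) hb).1 h1
      exact ⟨fun _ => 0, fun _ => le_rfl, by simp [← ht0], by simp [hx]⟩
    · have h1 : gauge (convexHull ℝ (range f)) (t⁻¹ • x) ≤ 1 := by
        rw [gauge_smul_of_nonneg (inv_nonneg.2 ht0.le), smul_eq_mul, inv_mul_le_iff₀ ht0, mul_one]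
        exact h
      rw [gauge_le_one_iff_mem_closure hc hn, hcomp.isClosed.closure_eq] at h1
      obtain ⟨w, hw0, hw1, hw2⟩ := mem_hull f _ h1
      refine ⟨fun i => t * w i, fun i => mul_nonneg ht0.le (hw0 i), ?_, ?_⟩
      · rw [← Finset.mul_sum, hw1, mul_one]
      · simp only [mul_smul]
        rw [← Finset.smul_sum, hw2, smul_smul, mul_inv_cancel₀ ht0.ne', one_smul]
  · rintro ⟨w, hw0, hw1, hw2⟩
    have ht : 0 ≤ t := hw1 ▸ Finset.sum_nonneg fun i _ => hw0 i
    rcases ht.eq_or_lt with ht0 | ht0
    · have hz : ∀ i, w i = 0 := by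
        intro i
        have := (Finset.sum_eq_zero_iff_of_nonneg (fun i _ => hw0 i)).1 (hw1.trans ht0.symm) i
          (Finset.mem_univ i)
        exact this
      have hx : x = 0 := by
        rw [← hw2]
        simp [hz]
      rw [hx, gauge_zero]
      exact ht
    · refine gauge_le_of_mem ht ?_
      refine ⟨t⁻¹ • x, ?_, ?_⟩
      · refine mem_convexHull_of_exists_fintype (fun i => t⁻¹ * w i) f
          (fun i => mul_nonneg (inv_nonneg.2 ht) (hw0 i)) ?_ (fun i => mem_range_self i) ?_
        · rw [← Finset.mul_sum, hw1, inv_mul_cancel₀ ht0.ne']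
        · simp only [mul_smul]
          rw [← Finset.smul_sum, hw2]
      · simp only [smul_smul]
        rw [mul_inv_cancel₀ ht0.ne', one_smul]

theorem PkBV1.thm : G_BV1 := by
  intro ι _ _ _ a b c s hs0 hsi hci
  classical
  -- components of a combination
  have hA : ∀ (W : (Σ i, Fin (b i + 1)) → ℝ) (j : Fin a),
      (∑ x, W x • pt c s x) (Sum.inl j) = ∑ i, (∑ α, W ⟨i, α⟩) * c i j := by
    intro W j
    rw [Finset.sum_apply, Fintype.sum_sigma]
    refine Finset.sum_congr rfl fun i _ => ?_
    rw [Finset.sum_mul]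
    refine Finset.sum_congr rfl fun α _ => ?_
    simp [pt]
  have hB : ∀ (W : (Σ i, Fin (b i + 1)) → ℝ) (i : ι) (j : Fin (b i)),
      (∑ x, W x • pt c s x) (Sum.inr ⟨i, j⟩) = ∑ α, W ⟨i, α⟩ * s i α j := by
    intro W i j
    rw [Finset.sum_apply, Fintype.sum_sigma, Finset.sum_eq_single i]
    · refine Finset.sum_congr rfl fun α _ => ?_
      simp [pt]
    · intro i' _ hi'
      refine Finset.sum_eq_zero fun α _ => ?_
      simp [pt, hi']
    · intro h
      exact absurd (Finset.mem_univ _) h
  constructor
  · ext x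
    rw [Set.mem_ofPred_eq]
    constructor
    · intro hx
      obtain ⟨W, hW0, hW1, hW2⟩ : ∃ W : (Σ i, Fin (b i + 1)) → ℝ, (∀ i, 0 ≤ W i) ∧
          ∑ i, W i = 1 ∧ ∑ i, W i • pt c s i = x := by
        obtain ⟨J, _, w, z, hw0, hw1, hz, hx⟩ := mem_convexHull_iff_exists_fintype.1 hx
        choose k hk using hz
        refine ⟨fun i => ∑ j ∈ Finset.univ.filter (fun j => k j = i), w j, ?_, ?_, ?_⟩
        · intro i
          exact Finset.sum_nonneg fun j _ => hw0 j
        · rw [Finset.sum_fiberwise]
          exact hw1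
        · rw [← hx]
          have : ∀ i, (∑ j ∈ Finset.univ.filter (fun j => k j = i), w j) • pt c s i =
              ∑ j ∈ Finset.univ.filter (fun j => k j = i), w j • z j := by
            intro i
            rw [Finset.sum_smul]
            refine Finset.sum_congr rfl fun j hj => ?_
            rw [← hk j, (Finset.mem_filter.1 hj).2]
          simp only [this]
          rw [Finset.sum_fiberwise]
      set lam : ι → ℝ := fun i => ∑ α, W ⟨i, α⟩ with hlam
      have hlam1 : ∑ i, lam i = 1 := by
        rw [← hW1, Fintype.sum_sigma]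
      set γ : ι → ℝ := fun i => gauge (convexHull ℝ (range (s i))) (fun j => x (Sum.inr ⟨i, j⟩))
        with hγ
      have hγle : ∀ i, γ i ≤ lam i := by
        intro i
        rw [hγ]
        refine (gauge_le_iff (s i) (hsi i) _ _).2 ⟨fun α => W ⟨i, α⟩, fun α => hW0 _, rfl, ?_⟩
        funext j
        rw [← hW2, hB, Finset.sum_apply]
        rfl
      have hQ : gauge (convexHull ℝ (range c)) (fun j => x (Sum.inl j) - ∑ i, γ i * c i j) ≤
          1 - ∑ i, γ i := by
        refine (gauge_le_iff c hci _ _).2 ⟨fun i => lam i - γ i, fun i => sub_nonneg.2 (hγle i), ?_,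
          ?_⟩
        · rw [Finset.sum_sub_distrib, hlam1]
        · funext j
          rw [← hW2, hA, Finset.sum_apply, ← Finset.sum_sub_distrib]
          refine Finset.sum_congr rfl fun i _ => ?_
          simp only [Pi.smul_apply, smul_eq_mul]
          ring
      have : Gm c s x = (∑ i, γ i) +
          gauge (convexHull ℝ (range c)) (fun j => x (Sum.inl j) - ∑ i, γ i * c i j) := rfl
      rw [this]
      linarith
    · intro hx
      set γ : ι → ℝ := fun i => gauge (convexHull ℝ (range (s i))) (fun j => x (Sum.inr ⟨i, j⟩))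
        with hγ
      have hG : Gm c s x = (∑ i, γ i) +
          gauge (convexHull ℝ (range c)) (fun j => x (Sum.inl j) - ∑ i, γ i * c i j) := rfl
      rw [hG] at hx
      have hQ : gauge (convexHull ℝ (range c)) (fun j => x (Sum.inl j) - ∑ i, γ i * c i j) ≤
          1 - ∑ i, γ i := by linarith
      obtain ⟨ν, hν0, hν1, hν2⟩ := (gauge_le_iff c hci _ _).1 hQ
      have hw : ∀ i, ∃ w : Fin (b i + 1) → ℝ, (∀ α, 0 ≤ w α) ∧ ∑ α, w α = γ i ∧
          ∑ α, w α • s i α = fun j => x (Sum.inr ⟨i, j⟩) := by
        intro i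
        exact (gauge_le_iff (s i) (hsi i) _ _).1 le_rfl
      choose w hw0 hw1 hw2 using hw
      let W : (Σ i, Fin (b i + 1)) → ℝ := fun x => w x.1 x.2 + ν x.1 / (b x.1 + 1)
      have hsumW : ∀ i, ∑ α, W ⟨i, α⟩ = γ i + ν i := by
        intro i
        simp only [W]
        rw [Finset.sum_add_distrib, hw1, Finset.sum_const, Finset.card_univ, Fintype.card_fin,
          nsmul_eq_mul]
        have : ((b i + 1 : ℕ) : ℝ) ≠ 0 := by positivity
        push_cast at this ⊢
        field_simp
      have hxW : ∑ y, W y • pt c s y = x := by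
        funext k
        rcases k with j | ⟨i, j⟩
        · rw [hA]
          simp only [hsumW]
          have h1 := congrFun hν2 j
          rw [Finset.sum_apply] at h1
          simp only [Pi.smul_apply, smul_eq_mul] at h1
          simp only [add_mul, Finset.sum_add_distrib]
          rw [h1]
          ring
        · rw [hB]
          have h1 := congrFun (hw2 i) j
          rw [Finset.sum_apply] at h1
          simp only [Pi.smul_apply, smul_eq_mul] at h1
          have h2 := congrFun (hs0 i) j
          rw [Finset.sum_apply] at h2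
          simp only [W, add_mul, Finset.sum_add_distrib]
          rw [h1, ← Finset.mul_sum, h2]
          simp
      rw [← hxW]
      refine mem_convexHull_of_exists_fintype W (pt c s) ?_ ?_ (fun y => mem_range_self y) rfl
      · intro y
        exact add_nonneg (hw0 _ _) (div_nonneg (hν0 _) (by positivity))
      · rw [Fintype.sum_sigma]
        simp only [hsumW]
        rw [Finset.sum_add_distrib, hν1]
        ring
  · have hgs : ∀ i, Continuous (gauge (convexHull ℝ (range (s i)))) := fun i =>
      continuous_gauge (convex_convexHull ℝ _) (mem_interior_iff_mem_nhds.1 (hsi i))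
    have hgc : Continuous (gauge (convexHull ℝ (range c))) :=
      continuous_gauge (convex_convexHull ℝ _) (mem_interior_iff_mem_nhds.1 hci)
    have h1 : ∀ i, Continuous (fun x : (Fin a ⊕ (Σ i, Fin (b i))) → ℝ =>
        gauge (convexHull ℝ (range (s i))) (fun j => x (Sum.inr ⟨i, j⟩))) := by
      intro i
      exact (hgs i).comp (continuous_pi fun j => continuous_apply _)
    unfold Gm
    refine (continuous_finsetSum _ fun i _ => h1 i).add (hgc.comp (continuous_pi fun j => ?_))
    exact (continuous_apply _).sub (continuous_finsetSum _ fun i _ => (h1 i).mul continuous_const)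

end Pool.Agent.Helper37.Poly
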