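import Pool.Agent.Helper86.Poly.Goals

set_option autoImplicit false

namespace Pool.Agent.Helper37.Poly

open Pool.Agent.Helper86.Poly MeasureTheory Set

abbrev JS (r N : ℕ) : Type := {s : Finset (Fin N) // s.card = r}

def JS.emb {r N : ℕ} (I : JS r N) : Fin r ↪o Fin N := I.1.orderEmbOfFin I.2

theorem cauchyBinet {k : Type} [Field k] (r N : ℕ) (P : Matrix (Fin r) (Fin N) k)
    (Q : Matrix (Fin N) (Fin r) k) :
    (P * Q).det = ∑ K : JS r N, (P.submatrix id K.emb).det * (Q.submatrix K.emb id).det := by
  classical
  have h1 : (P * Q).det = ∑ f : Fin r → Fin N, (∏ i, P i (f i)) * (Q.submatrix f id).det := by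
    have e : (P * Q) = fun i => ∑ j, P i j • Q j := by
      funext i a
      simp [Matrix.mul_apply, Finset.sum_apply]
    have e2 : (P * Q).det =
        (Matrix.detRowAlternating (n := Fin r) (R := k)).toMultilinearMap
          (fun i => ∑ j, P i j • Q j) := by
      rw [e]; rfl
    rw [e2, MultilinearMap.map_sum]
    refine Finset.sum_congr rfl fun f _ => ?_
    rw [MultilinearMap.map_smul_univ]
    rfl
  rw [h1]
  have h2 : ∑ f : Fin r → Fin N, (∏ i, P i (f i)) * (Q.submatrix f id).det =
      ∑ f ∈ Finset.univ.filter (fun f : Fin r → Fin N => Function.Injective f),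
        (∏ i, P i (f i)) * (Q.submatrix f id).det := by
    rw [Finset.sum_filter]
    refine Finset.sum_congr rfl fun f _ => ?_
    split_ifs with hf
    · rfl
    · have : ∃ a b, f a = f b ∧ a ≠ b := by
        simpa [Function.Injective] using hf
      obtain ⟨a, b, hab, hne⟩ := this
      have : (Q.submatrix f id).det = 0 := by
        apply Matrix.det_zero_of_row_eq hne
        funext c
        simp [Matrix.submatrix_apply, hab]
      rw [this, mul_zero]
  rw [h2]
  have h3 : ∑ f ∈ Finset.univ.filter (fun f : Fin r → Fin N => Function.Injective f),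
        (∏ i, P i (f i)) * (Q.submatrix f id).det =
      ∑ p : JS r N × Equiv.Perm (Fin r),
        (∏ i, P i (p.1.emb (p.2 i))) * (Q.submatrix (fun i => p.1.emb (p.2 i)) id).det := by
    symm
    apply Finset.sum_bij (fun (p : JS r N × Equiv.Perm (Fin r)) _ => fun i => p.1.emb (p.2 i))
    · intro p _
      simp only [Finset.mem_filter, Finset.mem_univ, true_and]
      exact p.1.emb.injective.comp p.2.injective
    · rintro ⟨K, σ⟩ _ ⟨K', σ'⟩ _ h
      have hr : ∀ (K : JS r N) (σ : Equiv.Perm (Fin r)),
          Set.range (fun i => K.emb (σ i)) = (K.1 : Set (Fin N)) := by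
        intro K σ
        have : Set.range (fun i => K.emb (σ i)) = Set.range (K.emb ∘ σ) := rfl
        rw [this, σ.surjective.range_comp]
        exact Finset.range_orderEmbOfFin K.1 K.2
      have hK : K = K' := by
        apply Subtype.ext
        have : (K.1 : Set (Fin N)) = (K'.1 : Set (Fin N)) := by
          rw [← hr K σ, ← hr K' σ']
          exact congrArg Set.range h
        exact_mod_cast this
      subst hK
      have hσ : σ = σ' := by
        apply Equiv.ext
        intro i
        exact K.emb.injective (congrFun h i)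
      rw [hσ]
    · intro f hf
      simp only [Finset.mem_filter, Finset.mem_univ, true_and] at hf
      let K : JS r N := ⟨Finset.univ.image f, by
        rw [Finset.card_image_of_injective _ hf]; simp⟩
      have hK : Set.range K.emb = (K.1 : Set (Fin N)) := Finset.range_orderEmbOfFin K.1 K.2
      have hex : ∀ i, ∃ j, K.emb j = f i := by
        intro i
        have : f i ∈ (K.1 : Set (Fin N)) := by
          simp [K]
        rw [← hK] at this
        exact this
      choose g hg using hex
      have hginj : Function.Injective g := by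
        intro a b hab
        apply hf
        rw [← hg a, ← hg b, hab]
      have hgbij : Function.Bijective g := Finite.injective_iff_bijective.1 hginj
      refine ⟨(K, Equiv.ofBijective g hgbij), Finset.mem_univ _, ?_⟩
      funext i
      exact hg i
    · intro p _
      rfl
  rw [h3, Fintype.sum_prod_type]
  refine Finset.sum_congr rfl fun K _ => ?_
  have h4 : ∀ σ : Equiv.Perm (Fin r), (Q.submatrix (fun i => K.emb (σ i)) id).det =
      (Equiv.Perm.sign σ : k) * (Q.submatrix K.emb id).det := by
    intro σ
    have := Matrix.det_permute σ (Q.submatrix K.emb id)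
    rw [← this]
    rfl
  simp only [h4]
  have h5 : (P.submatrix id K.emb).det = ∑ σ : Equiv.Perm (Fin r),
      (Equiv.Perm.sign σ : k) * ∏ i, P i (K.emb (σ i)) := by
    rw [← Matrix.det_transpose, Matrix.det_apply']
    rfl
  rw [h5, Finset.sum_mul]
  refine Finset.sum_congr rfl fun σ _ => ?_
  ring

/-- bordered matrix -/
noncomputable def bord {n d : ℕ} (q : Fin n → Fin d → ℝ) : Matrix (Fin n) (Fin (d + 1)) ℝ :=
  fun i j => Fin.cases 1 (fun j => q i j) j

theorem det_bord {d : ℕ} (q : Fin (d + 1) → Fin d → ℝ) :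
    (bord q).det = Matrix.det (Matrix.of fun i j : Fin d => q i.succ j - q 0 j) := by
  classical
  let A : Matrix (Fin (d + 1)) (Fin (d + 1)) ℝ := fun i j =>
    bord q i j + (if i = 0 then 0 else -1) * bord q 0 j
  have hA : A.det = (bord q).det :=
    Matrix.det_eq_of_forall_row_eq_smul_add_const (fun i => if i = 0 then (0 : ℝ) else -1) 0
      (by simp) (fun i j => rfl)
  rw [← hA, Matrix.det_succ_column_zero, Finset.sum_eq_single 0]
  · have h0 : A 0 0 = 1 := by simp [A, bord]
    rw [h0]
    simp only [Fin.val_zero, pow_zero, one_mul]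
    congr 1
    ext i j
    have hij : A.submatrix (Fin.succAbove 0) Fin.succ i j = A i.succ j.succ := rfl
    rw [hij]
    simp [A, bord]
    ring
  · intro i _ hi
    have : A i 0 = 0 := by simp [A, bord, hi]
    rw [this]
    ring
  · intro h
    exact absurd (Finset.mem_univ _) h

theorem amgm {ι : Type} [Fintype ι] (hd : 0 < Fintype.card ι) (z : ι → ℝ) (hz : ∀ i, 0 ≤ z i) :
    ∏ i, z i ≤ ((∑ i, z i) / Fintype.card ι) ^ (Fintype.card ι) := by
  have hd' : (0 : ℝ) < Fintype.card ι := by exact_mod_cast hd
  have h := Real.geom_mean_le_arith_mean_weighted Finset.univ (fun _ : ι => (1 / Fintype.card ι : ℝ)) z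
    (fun i _ => by positivity) (by
      rw [Finset.sum_const, Finset.card_univ, nsmul_eq_mul]
      field_simp) (fun i _ => hz i)
  have h1 : (∏ i, z i ^ (1 / Fintype.card ι : ℝ)) ^ (Fintype.card ι) = ∏ i, z i := by
    rw [← Finset.prod_pow]
    refine Finset.prod_congr rfl fun i _ => ?_
    rw [← Real.rpow_natCast, ← Real.rpow_mul (hz i), one_div_mul_cancel hd'.ne', Real.rpow_one]
  rw [← h1]
  have h2 : ∑ i, (1 / Fintype.card ι : ℝ) * z i = (∑ i, z i) / Fintype.card ι := by
    rw [← Finset.mul_sum]
    ring
  rw [← h2]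
  exact pow_le_pow_left₀ (Finset.prod_nonneg fun i _ => Real.rpow_nonneg (hz i) _) h _

theorem det_gram_le {n d : ℕ} (hd : 1 ≤ d) (q : Fin n → Fin d → ℝ) :
    (Matrix.det (Matrix.of fun j k : Fin d => ∑ i, q i j * q i k)) ≤
      ((∑ i, ∑ j, q i j ^ 2) / d) ^ d := by
  classical
  let N : Matrix (Fin n) (Fin d) ℝ := Matrix.of q
  have hB : (Matrix.of fun j k : Fin d => ∑ i, q i j * q i k) = N.conjTranspose * N := by
    ext j k
    simp [Matrix.mul_apply, N]
  have hps : (N.conjTranspose * N).PosSemidef := Matrix.posSemidef_conjTranspose_mul_self N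
  rw [hB, hps.isHermitian.det_eq_prod_eigenvalues]
  have htr : ∑ i, hps.isHermitian.eigenvalues i = ∑ i, ∑ j, q i j ^ 2 := by
    have h := hps.isHermitian.trace_eq_sum_eigenvalues
    have h2 : (N.conjTranspose * N).trace = ∑ i, ∑ j, q i j ^ 2 := by
      rw [← hB, Matrix.trace, Finset.sum_comm]
      refine Finset.sum_congr rfl fun j _ => ?_
      simp only [Matrix.diag_apply, Matrix.of_apply]
      refine Finset.sum_congr rfl fun i _ => ?_
      ring
    rw [← h2, h]
    simp
  have h := amgm (ι := Fin d) (by rw [Fintype.card_fin]; omega) (fun i => hps.isHermitian.eigenvalues i)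
    (fun i => hps.eigenvalues_nonneg i)
  rw [htr] at h
  simpa using h

theorem PkCB.thm (hSV : G_SV) : G_CB := by
  intro d n p hd hn hp
  classical
  have hn0 : (0 : ℝ) < n := by exact_mod_cast hn
  set z : E d := (n : ℝ)⁻¹ • ∑ i, p i with hz
  set q : Fin n → E d := fun i => p i - z with hq
  have hsum : ∑ i, q i = 0 := by
    simp only [hq, Finset.sum_sub_distrib, Finset.sum_const, Finset.card_univ, Fintype.card_fin,
      hz]
    rw [← Nat.cast_smul_eq_nsmul ℝ, smul_smul, mul_inv_cancel₀ hn0.ne', one_smul, sub_self]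
  let M : Matrix (Fin n) (Fin (d + 1)) ℝ := bord (fun i j => q i j)
  -- volumes
  have hvol : ∀ K : JS (d + 1) n,
      ((d.factorial : ℝ) * (volume (convexHull ℝ (p '' (K.1 : Set (Fin n))))).toReal) ^ 2 =
        (M.submatrix K.emb id).det ^ 2 := by
    intro K
    have h1 := hSV d (p ∘ K.emb)
    have hr : range (p ∘ K.emb) = p '' (K.1 : Set (Fin n)) := by
      rw [range_comp]
      congr 1
      exact Finset.range_orderEmbOfFin K.1 K.2
    rw [hr] at h1
    have h2 := congrArg ENNReal.toReal h1
    rw [ENNReal.toReal_mul, ENNReal.toReal_natCast, ENNReal.toReal_ofReal (abs_nonneg _)] at h2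
    rw [h2, sq_abs]
    have h3 : (M.submatrix K.emb id) = bord (fun i j => q (K.emb i) j) := by
      ext i j
      rfl
    rw [h3, det_bord]
    congr 2
    ext i j
    simp [hq]
  have hsumS : ∑ S ∈ Finset.powersetCard (d + 1) (Finset.univ : Finset (Fin n)),
      ((d.factorial : ℝ) * (volume (convexHull ℝ (p '' (S : Set (Fin n))))).toReal) ^ 2 =
      ∑ K : JS (d + 1) n, (M.submatrix K.emb id).det ^ 2 := by
    rw [← Finset.sum_congr rfl (fun K _ => hvol K)]
    symm
    apply Finset.sum_bij (fun (K : JS (d + 1) n) _ => K.1)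
    · intro K _
      rw [Finset.mem_powersetCard]
      exact ⟨Finset.subset_univ _, K.2⟩
    · intro K _ K' _ h
      exact Subtype.ext h
    · intro S hS
      rw [Finset.mem_powersetCard] at hS
      exact ⟨⟨S, hS.2⟩, Finset.mem_univ _, rfl⟩
    · intro K _
      rfl
  rw [hsumS]
  have hCB := cauchyBinet (d + 1) n M.transpose M
  have hCB2 : ∑ K : JS (d + 1) n, (M.submatrix K.emb id).det ^ 2 = (M.transpose * M).det := by
    rw [hCB]
    refine Finset.sum_congr rfl fun K _ => ?_
    have : (M.transpose.submatrix id K.emb) = (M.submatrix K.emb id).transpose := by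
      ext i j
      rfl
    rw [this, Matrix.det_transpose, sq]
  rw [hCB2]
  -- block form
  have hent0 : (M.transpose * M) 0 0 = n := by
    simp [Matrix.mul_apply, M, bord]
  have hent1 : ∀ i : Fin d, (M.transpose * M) i.succ 0 = 0 := by
    intro i
    have : ∑ x, q x i = 0 := by
      have := congrArg (fun v : E d => v i) hsum
      simpa using this
    simp only [Matrix.mul_apply, M, bord, Matrix.transpose_apply, Fin.cases_succ, Fin.cases_zero,
      mul_one]
    exact this
  have hdet : (M.transpose * M).det = n *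
      Matrix.det (Matrix.of fun j k : Fin d => ∑ i, q i j * q i k) := by
    rw [Matrix.det_succ_column_zero, Finset.sum_eq_single 0]
    · rw [hent0]
      simp only [Fin.val_zero, pow_zero, one_mul]
      congr 2
    · intro i _ hi
      obtain ⟨i', rfl⟩ := Fin.exists_succ_eq.2 hi
      rw [hent1]
      ring
    · intro h
      exact absurd (Finset.mem_univ _) h
  rw [hdet]
  refine mul_le_mul_of_nonneg_left ?_ hn0.le
  refine (det_gram_le hd (fun i j => q i j)).trans ?_
  -- trace
  have hnorm : ∀ v : E d, ∑ j, v j ^ 2 = ‖v‖ ^ 2 := by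
    intro v
    rw [EuclideanSpace.norm_sq_eq]
    simp
  have htr : ∑ i, ∑ j, q i j ^ 2 ≤ ((n : ℝ) - 1) / 2 := by
    simp only [hnorm]
    have h1 : ∑ i, ∑ j, ‖q i - q j‖ ^ 2 = 2 * n * ∑ i, ‖q i‖ ^ 2 := by
      have : ∀ i j, ‖q i - q j‖ ^ 2 = ‖q i‖ ^ 2 - 2 * inner ℝ (q i) (q j) + ‖q j‖ ^ 2 := by
        intro i j
        exact norm_sub_sq_real _ _
      simp only [this, Finset.sum_add_distrib, Finset.sum_sub_distrib, Finset.sum_const,
        Finset.card_univ, Fintype.card_fin, nsmul_eq_mul, ← Finset.mul_sum]
      have h3 : ∀ i, ∑ j, inner ℝ (q i) (q j) = 0 := by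
        intro i
        rw [← inner_sum, hsum, inner_zero_right]
      simp only [h3]
      simp
      try ring
    have h2 : ∑ i, ∑ j, ‖q i - q j‖ ^ 2 ≤ ∑ i : Fin n, ∑ j : Fin n, (if i = j then (0 : ℝ) else 1) := by
      refine Finset.sum_le_sum fun i _ => Finset.sum_le_sum fun j _ => ?_
      split_ifs with h
      · subst h
        simp
      · have h4 : q i - q j = p i - p j := by
          simp [hq]
        rw [h4, ← dist_eq_norm]
        have := hp i j
        have h5 : 0 ≤ dist (p i) (p j) := dist_nonneg
        nlinarith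
    have h6 : ∑ i : Fin n, ∑ j : Fin n, (if i = j then (0 : ℝ) else 1) = n * (n - 1) := by
      have : ∀ i : Fin n, ∑ j : Fin n, (if i = j then (0 : ℝ) else 1) = n - 1 := by
        intro i
        have : ∀ j : Fin n, (if i = j then (0 : ℝ) else 1) = 1 - (if i = j then (1 : ℝ) else 0) := by
          intro j
          split_ifs <;> simp
        simp only [this, Finset.sum_sub_distrib]
        simp
      simp only [this]
      simp
      ring
    rw [h1, h6] at h2
    have h7 : n * (2 * ∑ i, ‖q i‖ ^ 2) ≤ n * ((n : ℝ) - 1) := by linarith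
    have := le_of_mul_le_mul_left h7 hn0
    linarith
  have hd0 : (0 : ℝ) < d := by exact_mod_cast hd
  refine pow_le_pow_left₀ ?_ ?_ d
  · refine div_nonneg (Finset.sum_nonneg fun i _ => Finset.sum_nonneg fun j _ => sq_nonneg _) hd0.le
  · rw [div_le_div_iff₀ hd0 (by positivity)]
    nlinarith [mul_le_mul_of_nonneg_right htr hd0.le]

end Pool.Agent.Helper37.Poly
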